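import Pool.Agent.W559.Et.Stm5

set_option autoImplicit false
set_option linter.unusedSectionVars false
set_option linter.unusedVariables false

open MvPolynomial AlgebraicGeometry CategoryTheory TensorProduct

universe u

namespace Pool.Agent.W372.Et

open Pool.Agent.W559.Mg Pool.Agent.W559.Et

section

variable {k B K : Type u} [Field k] [CommRing B] [IsDomain B] [Algebra k B] [Field K]
  [Algebra k K] (ι : B →ₐ[k] K)

lemma loc_equiv (hι : Function.Injective ι) (f : B) (hf : ι f ≠ 0) :
    ∃ E : Localization.Away f ≃ₐ[k] lc ι.range (ι f) ⟨f, rfl⟩,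
      (∀ b, ((E (algebraMap B (Localization.Away f) b) : lc ι.range (ι f) ⟨f, rfl⟩) : K) = ι b) ∧
      ((E (IsLocalization.Away.invSelf f) : lc ι.range (ι f) ⟨f, rfl⟩) : K) = (ι f)⁻¹ := by
  let R := lc ι.range (ι f) ⟨f, rfl⟩
  let φ : B →+* R := ((Subalgebra.inclusion (le_lc ι.range (ι f) ⟨f, rfl⟩)).comp
    ι.rangeRestrict : B →ₐ[k] R).toRingHom
  let _ : Algebra B R := φ.toAlgebra
  have hφ : ∀ b, ((algebraMap B R b : R) : K) = ι b := fun b => rfl
  have hst : IsScalarTower k B R := IsScalarTower.of_algebraMap_eq fun r => by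
    apply Subtype.ext
    rw [hφ, AlgHom.commutes]
    rfl
  have hloc : IsLocalization.Away f R := by
    refine IsLocalization.Away.mk f ?_ ?_ ?_
    · refine IsUnit.of_mul_eq_one ⟨(ι f)⁻¹, inv_mem_lc ι.range (ι f) _ ⟨f, rfl⟩
        (mul_inv_cancel₀ hf)⟩ ?_
      apply Subtype.ext
      change ι f * (ι f)⁻¹ = 1
      exact mul_inv_cancel₀ hf
    · rintro ⟨g, n, b, hb⟩
      refine ⟨n, b, ?_⟩
      apply Subtype.ext
      change g * (algebraMap B R f : K) ^ n = algebraMap B R b
      rw [hφ, hφ]
      have hb' : ι b = ι f ^ n * g := hb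
      rw [hb', mul_comm]
    · intro a b hab
      refine ⟨0, ?_⟩
      have h3 : ((algebraMap B R a : R) : K) = ((algebraMap B R b : R) : K) :=
        congrArg Subtype.val hab
      rw [hφ, hφ] at h3
      rw [hι h3]
  let E0 : Localization.Away f ≃ₐ[B] R := IsLocalization.algEquiv (Submonoid.powers f) _ _
  have h1 : ∀ b, ((E0 (algebraMap B (Localization.Away f) b) : R) : K) = ι b := by
    intro b
    rw [AlgEquiv.commutes, hφ]
  refine ⟨E0.restrictScalars k, h1, ?_⟩
  have h2 : algebraMap B (Localization.Away f) f * IsLocalization.Away.invSelf f = 1 :=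
    IsLocalization.Away.mul_invSelf f
  have h3 : ι f * ((E0 (IsLocalization.Away.invSelf f) : R) : K) = 1 := by
    rw [← h1]
    have := congrArg (fun z => ((E0 z : R) : K)) h2
    simp only [map_mul, map_one] at this
    exact this
  exact eq_inv_of_mul_eq_one_right h3

/-- Transport of the local linearity to the function field. -/
theorem ll_of_locLin (hι : Function.Injective ι) (ρ : B →ₐ[k] B) (τ : K →ₐ[k] K)
    (hτ : ∀ b, τ (ι b) = ι (ρ b)) (h : LocLin ρ) : LL τ ι.range := by
  classical
  intro q' hq' hfix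
  let e : B →ₐ[k] ι.range := ι.rangeRestrict
  let q : Ideal B := q'.comap (e : B →+* ι.range)
  have hq : q.IsPrime := Ideal.comap_isPrime _ _
  have h1 : ∀ b, ρ b - b ∈ q := by
    intro b
    change e (ρ b - b) ∈ q'
    have hmem : τ (ι b) - ι b ∈ ι.range := by rw [hτ, ← map_sub]; exact ⟨_, rfl⟩
    have h2 := hfix (ι b) ⟨b, rfl⟩ hmem
    have h3 : e (ρ b - b) = ⟨τ (ι b) - ι b, hmem⟩ := by
      apply Subtype.ext
      change ι (ρ b - b) = τ (ι b) - ι b
      rw [map_sub, hτ]
    rw [h3]
    exact h2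
  obtain ⟨f, hfq, hρf, m, N, y, het, hspan⟩ := h q hq h1
  have hf0 : ι f ≠ 0 := by
    intro h0
    have : f = 0 := hι (by rw [h0, map_zero])
    exact hfq (this ▸ q.zero_mem)
  obtain ⟨E, hE1, hE2⟩ := loc_equiv ι hι f hf0
  have hx : ∀ i, ∃ z : lc ι.range (ι f) ⟨f, rfl⟩, (z : K) = ι (y i) * (ι f)⁻¹ ^ N ∧
      z = E (algebraMap B (Localization.Away f) (y i) *
        IsLocalization.Away.invSelf f ^ N) := by
    intro i
    refine ⟨E (algebraMap B (Localization.Away f) (y i) *
        IsLocalization.Away.invSelf f ^ N), ?_, rfl⟩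
    rw [map_mul, map_pow]
    change ((E (algebraMap B (Localization.Away f) (y i)) : lc ι.range (ι f) ⟨f, rfl⟩) : K) *
      ((E (IsLocalization.Away.invSelf f) : lc ι.range (ι f) ⟨f, rfl⟩) : K) ^ N = _
    rw [hE1, hE2]
  choose x hx1 hx2 using hx
  have hspan' : ∀ i, ∃ c : Fin m → k, ρ (y i) = ∑ j, c j • y j := by
    intro i
    obtain ⟨c, hc⟩ := (Submodule.mem_span_range_iff_exists_fun k).1 (hspan i)
    exact ⟨c, hc.symm⟩
  choose A hA using hspan'
  let T : Module.End k (Fin m → k) :=
    { toFun := fun v j => ∑ i, v i * A i j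
      map_add' := by
        intro v w
        funext j
        simp only [Pi.add_apply, add_mul, Finset.sum_add_distrib]
      map_smul' := by
        intro c v
        funext j
        simp only [Pi.smul_apply, smul_eq_mul, RingHom.id_apply, Finset.mul_sum, mul_assoc] }
  refine ⟨ι f, ⟨f, rfl⟩, ?_, by rw [hτ, hρf], m, x, T, ?_, ?_⟩
  · intro h0
    apply hfq
    exact h0
  · have hcomp : ((aeval x : MvPolynomial (Fin m) k →ₐ[k]
        lc ι.range (ι f) ⟨f, rfl⟩).toRingHom) =
        (E : Localization.Away f →+* lc ι.range (ι f) ⟨f, rfl⟩).comp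
        ((aeval fun i => algebraMap B (Localization.Away f) (y i) *
          IsLocalization.Away.invSelf f ^ N :
        MvPolynomial (Fin m) k →ₐ[k] Localization.Away f).toRingHom) := by
      apply MvPolynomial.ringHom_ext
      · intro r
        change aeval x (C r) = E (aeval _ (C r))
        rw [MvPolynomial.aeval_C, MvPolynomial.aeval_C, AlgEquiv.commutes]
      · intro i
        change aeval x (X i) = E (aeval _ (X i))
        rw [MvPolynomial.aeval_X, MvPolynomial.aeval_X, hx2]
    rw [hcomp]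
    exact RingHom.Etale.respectsIso.1 _ E.toRingEquiv het
  · intro v
    have h2 : ∀ i, τ (x i : K) = ∑ j, A i j • (x j : K) := by
      intro i
      rw [hx1, map_mul, map_pow, map_inv₀, hτ, hτ, hρf, hA, map_sum, Finset.sum_mul]
      refine Finset.sum_congr rfl fun j _ => ?_
      rw [hx1, map_smul, smul_mul_assoc]
    rw [map_sum]
    have h3 : ∀ i, τ (v i • (x i : K)) = ∑ j, (v i * A i j) • (x j : K) := by
      intro i
      rw [map_smul, h2, Finset.smul_sum]
      refine Finset.sum_congr rfl fun j _ => ?_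
      rw [smul_smul]
    rw [Finset.sum_congr rfl fun i _ => h3 i, Finset.sum_comm]
    refine Finset.sum_congr rfl fun j _ => ?_
    rw [← Finset.sum_smul]
    rfl

end

lemma iter_pow {k K : Type u} [Field k] [Field K] [Algebra k K] (f : K →ₐ[k] K) (n : ℕ) (x : K) :
    (f ^ n) x = f^[n] x := by
  rw [AlgHom.coe_pow]

/-- The affine case. -/
theorem affMain (hMain : MainStm.{u}) (hGrp : GrpStm.{u}) (hAff : AffStm.{u}) :
    AffMainStm.{u} := by
  intro k B _ _ _ _ hsm σ p m hp hpk hmk hζ hσ hL1 hL2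
  let K := FractionRing B
  let ι : B →ₐ[k] K := IsScalarTower.toAlgHom k B K
  have hι : Function.Injective ι := IsFractionRing.injective B K
  let τe : K ≃ₐ[k] K := IsFractionRing.fieldEquivOfAlgEquiv k K K σ
  let τ : K →ₐ[k] K := (τe : K →ₐ[k] K)
  have hτe : ∀ b, τe (ι b) = ι (σ b) := fun b =>
    IsFractionRing.fieldEquivOfAlgEquiv_algebraMap k K K σ b
  have hτ : ∀ b, τ (ι b) = ι (σ b) := hτe
  have hm0 : 0 < m := Nat.pos_of_ne_zero fun h0 => hmk (by rw [h0, Nat.cast_zero])
  have hN0 : 0 < p * p * m := Nat.mul_pos (Nat.mul_pos hp.pos hp.pos) hm0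
  have hiter : ∀ (n : ℕ) (b : B), τ^[n] (ι b) = ι (σ^[n] b) := by
    intro n
    induction n with
    | zero => intro b; rfl
    | succ n ih => intro b; rw [Function.iterate_succ_apply, Function.iterate_succ_apply, hτ, ih]
  have hfrac : ∀ x : K, ∃ b b', ι b' ≠ 0 ∧ x = ι b / ι b' := by
    intro x
    obtain ⟨a, c, hc, rfl⟩ := IsFractionRing.div_surjective (A := B) x
    refine ⟨a, c, ?_, rfl⟩
    intro h0
    have : c = 0 := hι (by rw [h0, map_zero])
    exact nonZeroDivisors.ne_zero hc this
  have hdiv : ∀ (n : ℕ) (y z : K), τ^[n] (y / z) = τ^[n] y / τ^[n] z := by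
    intro n
    induction n with
    | zero => intro y z; rfl
    | succ n ih => intro y z; rw [Function.iterate_succ_apply, map_div₀, ih,
        Function.iterate_succ_apply, Function.iterate_succ_apply]
  have hτp : ∀ x, τ^[p * p * m] x = x := by
    intro x
    obtain ⟨b, b', -, rfl⟩ := hfrac x
    rw [hdiv, hiter, hiter, hσ, hσ]
  obtain ⟨γ, h, M, ω, a, b, c, hGD, hγ, hγc, hh, hfix, hB⟩ :=
    hGrp k K τ p m hp hpk hmk hζ hτp
  let B' : Subalgebra k K := ι.range
  have hstab : ∀ (n : ℕ), ∀ x ∈ B', (τ ^ n) x ∈ B' := by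
    rintro n _ ⟨y, rfl⟩
    change (τ ^ n) (ι y) ∈ B'
    rw [iter_pow, hiter]
    exact ⟨_, rfl⟩
  have hσpow : ∀ (n : ℕ) (b : B), (((σ : B →ₐ[k] B) ^ n) b) = σ^[n] b := by
    intro n b
    rw [AlgHom.coe_pow]
    rfl
  have hLL1 : LL (τ ^ m) B' := by
    refine ll_of_locLin ι hι _ _ ?_ hL1
    intro b
    rw [iter_pow, hiter, hσpow]
  have hLL2 : LL (τ ^ (m * p)) B' := by
    refine ll_of_locLin ι hι _ _ ?_ hL2
    intro b
    rw [iter_pow, hiter, hσpow]
  have hst1 : ∀ x ∈ B', τ x ∈ B' := by
    rintro _ ⟨y, rfl⟩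
    exact ⟨σ y, (hτ y).symm⟩
  obtain ⟨hLγ, hLγp⟩ := hB B' hst1 hLL1 hLL2
  let A := H920R2.fixedAlg σ
  let g : A →ₐ[k] K := ι.comp A.val
  have hg : Function.Injective g := hι.comp Subtype.val_injective
  let Kf : Subfield K := (H920R2.fixF τe).toSubfield
  have hKf : ∀ x, x ∈ Kf ↔ τ x = x := fun x => Iff.rfl
  have hsmB : Algebra.Smooth k B' := Algebra.Smooth.of_equiv (AlgEquiv.ofInjective ι hι)
  have hAA : AA {V : ValuationSubring K | ∀ a, g a ∈ V} Kf (fun _ : Unit => Set.range g) γ h
      (fun _ : PUnit.{u+1} => B') (fun _ => 1) :=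
    { H0 := fun _ => one_ne_zero
      Hg := fun _ => map_one γ
      Hh := fun _ => map_one h
      g := by
        intro _ x hx
        rw [hγ]
        exact hstab _ x hx
      st := by
        intro _ x hx
        rw [hh]
        exact hstab _ x hx
      fr := by
        intro _ x
        obtain ⟨b, b', h0, rfl⟩ := hfrac x
        exact ⟨ι b, ⟨b, rfl⟩, ι b', ⟨b', rfl⟩, h0, rfl⟩
      rt := by
        intro _ _
        rw [div_one]
        exact B'.one_mem
      gl := by
        intro _ _ x hx
        exact ⟨0, by rw [pow_zero, one_mul]; exact hx⟩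
      cv := by
        intro V hV
        refine ⟨PUnit.unit, ?_⟩
        rintro _ ⟨y, rfl⟩
        change ι y ∈ V
        have hint := (H920R2.isIntegral_fixedAlg σ (p * p * m) hN0 hσ).isIntegral y
        obtain ⟨P, hP, hP0⟩ := hint
        let gV : A →+* V :=
          { toFun := fun a => ⟨g a, hV a⟩
            map_one' := Subtype.ext (map_one g)
            map_mul' := fun a b => Subtype.ext (map_mul g a b)
            map_zero' := Subtype.ext (map_zero g)
            map_add' := fun a b => Subtype.ext (map_add g a b) }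
        have h1 : IsIntegral V (ι y) := by
          refine ⟨P.map gV, hP.map gV, ?_⟩
          rw [Polynomial.eval₂_map]
          have h2 : (algebraMap V K).comp gV = (ι : B →+* K).comp (algebraMap A B) := by
            ext a
            rfl
          rw [h2]
          have h3 : Polynomial.eval₂ (algebraMap A B) y P = 0 := hP0
          have h4 := Polynomial.hom_eval₂ P (algebraMap A B) (ι : B →+* K) y
          rw [h3, map_zero] at h4
          exact h4.symm
        obtain ⟨z, hz⟩ := IsIntegrallyClosed.isIntegral_iff.1 h1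
        rw [← hz]
        exact z.2
      aa := by
        intro _
        refine ⟨(), ?_⟩
        rintro _ ⟨a, rfl⟩
        have h1 : τ (g a) = g a := by
          change τ (ι (a : B)) = ι (a : B)
          rw [hτ]
          congr 1
          exact H920R2.mem_fixedAlg.1 a.2
        have h2 := (hfix (g a)).2 h1
        exact ⟨⟨(a : B), rfl⟩, h2.1, h2.2⟩
      kf := by
        intro x
        rw [hKf, hfix] }
  obtain ⟨T', hT', E', C', H', hMB⟩ := hMain k K γ h p M ω hGD _ Kf Unit _ PUnit.{u+1} _ _ hAA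
    (fun _ => hsmB) (fun _ => hLγ) (fun _ => hLγp)
  refine hAff k K A g hg Kf ?_ T' E' C' H' hMB
  intro x hx
  have hx' : τe x = x := hx
  obtain ⟨y, ⟨a, ha⟩, y', ⟨a', ha'⟩, hy', he⟩ :=
    H920R2.fixF_frac hN0 ι hι σ hσ τe hτe x hx' (hfrac x)
  refine ⟨a, a', ?_, ?_⟩
  · have : g a' = y' := ha'
    rw [this]
    exact hy'
  · have h1 : g a' = y' := ha'
    have h2 : g a = y := ha
    rw [h1, h2, he]

end Pool.Agent.W372.Et
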